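import Mathlib
import Pool.Agent.R332.Net

/-!
# Digital Kronecker - Van der Corput sequences for `Bad(P, q)` have low discrepancy
-/

open Polynomial Finset

namespace Pool.Agent.Results.MP_05fa0d_nt.LowDiscrepancy

variable {F : Type*} [Field F]

/-- The field `F((t⁻¹))` is realized as `LaurentSeries F`, the variable of the Laurent series being
`t⁻¹`; so the coefficient of `t ^ (-i)` in `Θ` is `Θ.coeff i`. This is the embedding of `F[t]` into
it, `t` going to `single (-1) 1`. -/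
noncomputable def ofPoly (b : F[X]) : LaurentSeries F :=
  b.eval₂ HahnSeries.C (HahnSeries.single (-1 : ℤ) 1)

/-- the fractional part: the sum of the terms `a_i t ^ (-i)` with `i ≥ 1` -/
noncomputable def frac (Θ : LaurentSeries F) : LaurentSeries F where
  coeff i := if 1 ≤ i then Θ.coeff i else 0
  isPWO_support' := Θ.isPWO_support.mono fun i hi => by
    by_contra h
    rw [HahnSeries.mem_support, not_not] at h
    simp [h] at hi

variable [Fintype F]

open Classical in
/-- the absolute value: `q ^ h` if `Θ = ∑_{i ≥ -h} a_i t ^ (-i)` with `a_{-h} ≠ 0`, and `|0| = 0` -/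
noncomputable def absv (Θ : LaurentSeries F) : ℝ :=
  if Θ = 0 then 0 else (Fintype.card F : ℝ) ^ (-Θ.order)

/-- the set `Bad(P, q)` -/
def Bad (P : F[X]) (Θ : LaurentSeries F) : Prop :=
  ∃ δ : ℝ, 0 < δ ∧ ∀ N : F[X], N ≠ 0 → ∀ k : ℕ,
    δ ≤ absv (ofPoly N) * absv (frac (ofPoly (N * P ^ k) * Θ))

/-- `ev_q` of a fractional part -/
noncomputable def evFrac (E : F ≃ Fin (Fintype.card F)) (Θ : LaurentSeries F) : ℝ :=
  ∑' i : ℕ, ((E (Θ.coeff ((i : ℤ) + 1)) : ℕ) : ℝ) / (Fintype.card F : ℝ) ^ (i + 1)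

/-- `ev_q` of a polynomial -/
noncomputable def evPoly (E : F ≃ Fin (Fintype.card F)) (b : F[X]) : ℕ :=
  ∑ j ∈ range (b.natDegree + 1), (E (b.coeff j) : ℕ) * Fintype.card F ^ j

/-- the polynomial `n(t)` of a natural number `n`, given by the base-`q` digits of `n` -/
noncomputable def polyOf (E : F ≃ Fin (Fintype.card F)) (n : ℕ) : F[X] :=
  ∑ i ∈ range (Nat.digits (Fintype.card F) n).length,
    monomial i (E.symm ⟨n / Fintype.card F ^ i % Fintype.card F, Nat.mod_lt _ Fintype.card_pos⟩)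

/-- the digital Kronecker sequence -/
noncomputable def kron (E : F ≃ Fin (Fintype.card F)) (Θ : LaurentSeries F) (n : ℕ) : ℝ :=
  evFrac E (frac (ofPoly (polyOf E n) * Θ))

/-- the digit `b_i` in `f = ∑ b_i B ^ i`, `deg b_i < deg B`: divide `i` times by `B`, then take the
remainder -/
noncomputable def digit (B f : F[X]) (i : ℕ) : F[X] := ((fun g => g / B)^[i] f) % B

/-- the digital Van der Corput sequence -/
noncomputable def vdc (E : F ≃ Fin (Fintype.card F)) (B : F[X]) (n : ℕ) : ℝ :=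
  ∑' i : ℕ, (evPoly E (digit B (polyOf E n) i) : ℝ) /
    ((Fintype.card F : ℝ) ^ B.natDegree) ^ (i + 1)

/-- the star discrepancy of the first `N` points of a sequence in the plane -/
noncomputable def starDisc (z : ℕ → ℝ × ℝ) (N : ℕ) : ℝ :=
  sSup {d : ℝ | ∃ γ l : ℝ, 0 ≤ γ ∧ γ ≤ 1 ∧ 0 ≤ l ∧ l ≤ 1 ∧
    d = |1 / (N : ℝ) * (Set.ncard {n : ℕ | n < N ∧ z n ∈ Set.Ico 0 γ ×ˢ Set.Ico 0 l} : ℝ) - γ * l|}

/-- low discrepancy -/
def LowDisc (z : ℕ → ℝ × ℝ) : Prop :=
  ∃ C : ℝ, ∀ N : ℕ, 2 ≤ N → starDisc z N ≤ C * (Real.log N ^ 2 / N)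

/-! ### Real numbers given by digits -/

theorem digits_sum (β : ℕ) (hβ : 2 ≤ β) (d : ℕ → ℕ) (S : ℕ → ℕ)
    (h0 : S 0 = 0) (hS : ∀ k, S (k + 1) = β * S k + d k) (k : ℕ) :
    ∑ i ∈ range k, (d i : ℝ) / (β : ℝ) ^ (i + 1) = (S k : ℝ) / (β : ℝ) ^ k := by
  have hβr : (0 : ℝ) < β := by exact_mod_cast (by omega : 0 < β)
  induction k with
  | zero => simp [h0]
  | succ k ih =>
    rw [Finset.sum_range_succ, ih, hS]
    push_cast
    field_simp
    ring

theorem digits_grow (β : ℕ) (d : ℕ → ℕ) (hd : ∀ i, d i < β) (S : ℕ → ℕ)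
    (hS : ∀ k, S (k + 1) = β * S k + d k) (k r : ℕ) : S (k + r) + 1 ≤ (S k + 1) * β ^ r := by
  induction r with
  | zero => simp
  | succ r ih =>
    have e : S (k + (r + 1)) = β * S (k + r) + d (k + r) := hS (k + r)
    have h1 := hd (k + r)
    rw [e, pow_succ, ← mul_assoc]
    calc β * S (k + r) + d (k + r) + 1 ≤ β * S (k + r) + β := by omega
      _ = (S (k + r) + 1) * β := by ring
      _ ≤ (S k + 1) * β ^ r * β := Nat.mul_le_mul_right _ ih

theorem digits_bound (β : ℕ) (hβ : 2 ≤ β) (d : ℕ → ℕ) (hd : ∀ i, d i < β) (S : ℕ → ℕ)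
    (h0 : S 0 = 0) (hS : ∀ k, S (k + 1) = β * S k + d k) (k n : ℕ) :
    ∑ i ∈ range n, (d i : ℝ) / (β : ℝ) ^ (i + 1) ≤ ((S k : ℝ) + 1) / (β : ℝ) ^ k := by
  have hβr : (0 : ℝ) < β := by exact_mod_cast (by omega : 0 < β)
  have key : ∀ r : ℕ, ∑ i ∈ range (k + r), (d i : ℝ) / (β : ℝ) ^ (i + 1) ≤
      ((S k : ℝ) + 1) / (β : ℝ) ^ k := by
    intro r
    rw [digits_sum β hβ d S h0 hS, div_le_div_iff₀ (by positivity) (by positivity)]
    have h1 := digits_grow β d hd S hS k r
    have h2 : (S (k + r) : ℝ) ≤ ((S k : ℝ) + 1) * (β : ℝ) ^ r := by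
      have : ((S (k + r) : ℝ) + 1) ≤ ((S k : ℝ) + 1) * (β : ℝ) ^ r := by exact_mod_cast h1
      linarith
    rw [pow_add]
    calc (S (k + r) : ℝ) * (β : ℝ) ^ k ≤ ((S k : ℝ) + 1) * (β : ℝ) ^ r * (β : ℝ) ^ k :=
          mul_le_mul_of_nonneg_right h2 (by positivity)
      _ = ((S k : ℝ) + 1) * ((β : ℝ) ^ k * (β : ℝ) ^ r) := by ring
  refine le_trans ?_ (key n)
  apply Finset.sum_le_sum_of_subset_of_nonneg
  · intro i hi
    rw [Finset.mem_range] at hi ⊢
    omega
  · intro i _ _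
    positivity

theorem digits_real (β : ℕ) (hβ : 2 ≤ β) (d : ℕ → ℕ) (hd : ∀ i, d i < β) (S : ℕ → ℕ)
    (h0 : S 0 = 0) (hS : ∀ k, S (k + 1) = β * S k + d k) (k : ℕ) :
    (S k : ℝ) / (β : ℝ) ^ k ≤ ∑' i : ℕ, (d i : ℝ) / (β : ℝ) ^ (i + 1) ∧
      ∑' i : ℕ, (d i : ℝ) / (β : ℝ) ^ (i + 1) ≤ ((S k : ℝ) + 1) / (β : ℝ) ^ k := by
  have hβr : (0 : ℝ) < β := by exact_mod_cast (by omega : 0 < β)
  have hnn : ∀ i, 0 ≤ (d i : ℝ) / (β : ℝ) ^ (i + 1) := fun i => by positivity
  constructor
  · rw [← digits_sum β hβ d S h0 hS k]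
    exact Summable.sum_le_tsum _ (fun i _ => hnn i)
      (summable_of_sum_range_le hnn fun n => digits_bound β hβ d hd S h0 hS 0 n)
  · exact Real.tsum_le_of_sum_range_le hnn fun n => digits_bound β hβ d hd S h0 hS k n

/-! ### Coefficients -/

omit [Fintype F] in
theorem coeff_mul (b : F[X]) (Θ : LaurentSeries F) (i : ℤ) (M : ℕ) (hM : b.natDegree < M) :
    (ofPoly b * Θ).coeff i = ∑ j ∈ range M, b.coeff j * Θ.coeff (i + j) := by
  unfold ofPoly
  rw [eval₂_eq_sum_range' _ hM, Finset.sum_mul, HahnSeries.coeff_sum]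
  refine Finset.sum_congr rfl fun j _ => ?_
  have h1 : (HahnSeries.single (-1 : ℤ) (1 : F)) ^ j = HahnSeries.single (-(j : ℤ)) 1 := by
    rw [HahnSeries.single_pow]; simp
  rw [h1, HahnSeries.C_apply, HahnSeries.single_mul_single, mul_one, zero_add]
  have := HahnSeries.coeff_single_mul_add (r := b.coeff j) (x := Θ) (a := i + j) (b := -(j : ℤ))
  rwa [add_neg_cancel_right] at this

omit [Fintype F] in
theorem ofPoly_mul (a b : F[X]) : ofPoly (a * b) = ofPoly a * ofPoly b := by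
  unfold ofPoly; rw [eval₂_mul]

omit [Fintype F] in
theorem ofPoly_sub (a b : F[X]) : ofPoly (a - b) = ofPoly a - ofPoly b := by
  unfold ofPoly; rw [eval₂_sub]

theorem one_lt_card : 1 < Fintype.card F := Fintype.one_lt_card

/-- the absolute value of a polynomial -/
theorem absv_ofPoly_le (N : F[X]) : absv (ofPoly N) ≤ (Fintype.card F : ℝ) ^ (N.natDegree : ℤ) := by
  have hq : (1 : ℝ) < Fintype.card F := by exact_mod_cast one_lt_card
  unfold absv
  split_ifs with h
  · positivity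
  · apply zpow_le_zpow_right₀ hq.le
    by_contra hlt
    push Not at hlt
    have h1 : (ofPoly N).coeff (ofPoly N).order ≠ 0 := fun h0 => h (HahnSeries.coeff_order_eq_zero.1 h0)
    apply h1
    have h2 := coeff_mul N 1 (ofPoly N).order (N.natDegree + 1) (Nat.lt_succ_self _)
    rw [mul_one] at h2
    rw [h2]
    refine Finset.sum_eq_zero fun j hj => ?_
    rw [Finset.mem_range] at hj
    rw [HahnSeries.coeff_one, if_neg (by omega), mul_zero]

/-- the combinatorial form of the condition defining `Bad(P, q)` -/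
theorem bad_coeff {P : F[X]} {Θ : LaurentSeries F} (h : Bad P Θ) :
    ∃ c : ℕ, 1 ≤ c ∧ ∀ N : F[X], N ≠ 0 → ∀ k : ℕ, ∃ i : ℕ, i + 1 ≤ N.natDegree + c ∧
      (ofPoly (N * P ^ k) * Θ).coeff ((i : ℤ) + 1) ≠ 0 := by
  obtain ⟨δ, hδ, h⟩ := h
  have hq : (1 : ℝ) < Fintype.card F := by exact_mod_cast one_lt_card
  have hq0 : (0 : ℝ) < Fintype.card F := by linarith
  obtain ⟨c, hc⟩ := exists_pow_lt_of_lt_one hδ (inv_lt_one_of_one_lt₀ hq)
  refine ⟨c + 1, by omega, fun N hN k => ?_⟩
  have h1 := h N hN k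
  set Φ := frac (ofPoly (N * P ^ k) * Θ) with hΦ
  have hΦ0 : Φ ≠ 0 := by
    intro h0
    rw [h0] at h1
    unfold absv at h1
    simp at h1
    linarith
  have h2 : absv Φ = (Fintype.card F : ℝ) ^ (-Φ.order) := by
    unfold absv
    rw [if_neg hΦ0]
  have hcoeff : Φ.coeff Φ.order ≠ 0 := fun h0 => hΦ0 (HahnSeries.coeff_order_eq_zero.1 h0)
  have hcf : Φ.coeff Φ.order = if 1 ≤ Φ.order then (ofPoly (N * P ^ k) * Θ).coeff Φ.order else 0 :=
    rfl
  have hpos : 1 ≤ Φ.order := by
    by_contra hcon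
    rw [hcf, if_neg hcon] at hcoeff
    exact hcoeff rfl
  rw [hcf, if_pos hpos] at hcoeff
  refine ⟨(Φ.order - 1).toNat, ?_, ?_⟩
  · have h3 : δ ≤ (Fintype.card F : ℝ) ^ ((N.natDegree : ℤ) - Φ.order) := by
      refine h1.trans ?_
      rw [h2, sub_eq_add_neg, zpow_add₀ hq0.ne']
      exact mul_le_mul_of_nonneg_right (absv_ofPoly_le N) (by positivity)
    have h4 : (Fintype.card F : ℝ) ^ (-(c : ℤ)) < (Fintype.card F : ℝ) ^ ((N.natDegree : ℤ) - Φ.order) := by
      refine lt_of_lt_of_le ?_ h3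
      rw [zpow_neg, zpow_natCast, ← inv_pow]
      exact hc
    have h5 := (zpow_lt_zpow_iff_right₀ hq).1 h4
    omega
  · have : (((Φ.order - 1).toNat : ℕ) : ℤ) + 1 = Φ.order := by omega
    rw [this]
    exact hcoeff

/-! ### The Hankel map -/

/-- first `k` coefficients of `w Ψ` -/
def hankel (Ψ : LaurentSeries F) (M k : ℕ) : (Fin M → F) →ₗ[F] (Fin k → F) where
  toFun w i := ∑ l : Fin M, w l * Ψ.coeff (((i : ℕ) : ℤ) + 1 + ((l : ℕ) : ℤ))
  map_add' v w := by
    ext i
    simp only [Pi.add_apply, add_mul, Finset.sum_add_distrib]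
  map_smul' r w := by
    ext i
    simp only [Pi.smul_apply, smul_eq_mul, RingHom.id_apply, Finset.mul_sum, mul_assoc]

omit [Fintype F] in
theorem hankel_surjective {P : F[X]} {Θ : LaurentSeries F} {c : ℕ}
    (h : ∀ N : F[X], N ≠ 0 → ∀ k : ℕ, ∃ i : ℕ, i + 1 ≤ N.natDegree + c ∧
      (ofPoly (N * P ^ k) * Θ).coeff ((i : ℤ) + 1) ≠ 0) (j M k : ℕ) (hk : k + c ≤ M + 1) :
    LinearMap.range (hankel (ofPoly (P ^ j) * Θ) M k) = ⊤ := by
  by_contra hne
  obtain ⟨f, hf0, hf⟩ := Submodule.exists_le_ker_of_lt_top _ (lt_top_iff_ne_top.2 hne)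
  set Ψ := ofPoly (P ^ j) * Θ with hΨ
  -- the polynomial of the functional
  let lam : Fin k → F := fun i => f (fun j => if i = j then 1 else 0)
  have hfl : ∀ y : Fin k → F, f y = ∑ i, y i * lam i := by
    intro y
    rw [LinearMap.pi_apply_eq_sum_univ f y]
    rfl
  let L : F[X] := ∑ i : Fin k, monomial (i : ℕ) (lam i)
  have hLc : ∀ n : ℕ, L.coeff n = if hn : n < k then lam ⟨n, hn⟩ else 0 := by
    intro n
    simp only [L, finsetSum_coeff, coeff_monomial]
    split_ifs with hn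
    · rw [Finset.sum_eq_single ⟨n, hn⟩]
      · simp
      · intro b _ hb
        rw [if_neg]
        intro h1
        exact hb (Fin.ext h1)
      · simp
    · refine Finset.sum_eq_zero fun i _ => ?_
      rw [if_neg]
      have := i.2
      omega
  have hL0 : L ≠ 0 := by
    intro h0
    apply hf0
    ext i
    have h1 := hLc i
    rw [h0, coeff_zero, dif_pos i.2] at h1
    simp only [LinearMap.coe_comp, LinearMap.coe_single, Function.comp_apply, LinearMap.zero_comp,
      LinearMap.zero_apply]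
    have h2 : (Pi.single i 1 : Fin k → F) = fun j => if i = j then 1 else 0 := by
      ext j
      by_cases hj : j = i
      · subst hj; simp
      · rw [Pi.single_eq_of_ne hj, if_neg (Ne.symm hj)]
    rw [h2]
    exact h1.symm
  have hkpos : 0 < k := by
    rcases Nat.eq_zero_or_pos k with h1 | h1
    · exfalso
      apply hL0
      ext n
      rw [hLc, dif_neg (by omega), coeff_zero]
    · exact h1
  have hLdeg : L.natDegree < k := by
    have h1 : L.natDegree ≤ k - 1 := by
      rw [natDegree_le_iff_coeff_eq_zero]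
      intro n hn
      rw [hLc, dif_neg (by omega)]
    omega
  obtain ⟨i, hi, hne⟩ := h L hL0 j
  apply hne
  rw [ofPoly_mul, mul_assoc, ← hΨ, coeff_mul L Ψ _ k hLdeg, Finset.sum_range]
  have hiM : i < M := by omega
  have h2 : f (hankel Ψ M k (Pi.single ⟨i, hiM⟩ 1)) = 0 :=
    LinearMap.mem_ker.1 (hf (LinearMap.mem_range_self _ _))
  rw [hfl] at h2
  rw [← h2]
  refine Finset.sum_congr rfl fun l _ => ?_
  have h3 : hankel Ψ M k (Pi.single ⟨i, hiM⟩ 1) l = Ψ.coeff (((l : ℕ) : ℤ) + 1 + (i : ℤ)) := by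
    show ∑ l' : Fin M, (Pi.single (M := fun _ => F) ⟨i, hiM⟩ 1 : Fin M → F) l' *
      Ψ.coeff (((l : ℕ) : ℤ) + 1 + ((l' : ℕ) : ℤ)) = _
    rw [Finset.sum_eq_single ⟨i, hiM⟩]
    · simp
    · intro b _ hb
      rw [Pi.single_eq_of_ne hb, zero_mul]
    · simp
  rw [h3, hLc, dif_pos l.2, mul_comm]
  congr 2
  ring

theorem card_ker {P : F[X]} {Θ : LaurentSeries F} {c : ℕ}
    (h : ∀ N : F[X], N ≠ 0 → ∀ k : ℕ, ∃ i : ℕ, i + 1 ≤ N.natDegree + c ∧
      (ofPoly (N * P ^ k) * Θ).coeff ((i : ℤ) + 1) ≠ 0) (j M k : ℕ)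
    (hk : k + c ≤ M + 1) :
    Nat.card (LinearMap.ker (hankel (ofPoly (P ^ j) * Θ) M k)) = Fintype.card F ^ (M - k) := by
  classical
  have h1 := LinearMap.finrank_range_add_finrank_ker (hankel (ofPoly (P ^ j) * Θ) M k)
  rw [hankel_surjective h j M k hk, finrank_top, Module.finrank_fin_fun, Module.finrank_fin_fun]
    at h1
  rw [Nat.card_eq_fintype_card, Module.card_eq_pow_finrank (K := F)]
  congr 1
  omega

/-! ### The polynomials of natural numbers -/

section
variable (E : F ≃ Fin (Fintype.card F))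

theorem polyOf_coeff (hE : (E 0 : ℕ) = 0) (n i : ℕ) : (polyOf E n).coeff i =
    E.symm ⟨n / Fintype.card F ^ i % Fintype.card F, Nat.mod_lt _ Fintype.card_pos⟩ := by
  have hE' : ∀ h : 0 < Fintype.card F, E.symm ⟨0, h⟩ = 0 := by
    intro h
    rw [Equiv.symm_apply_eq]
    exact Fin.ext hE.symm
  unfold polyOf
  rw [finsetSum_coeff]
  simp only [coeff_monomial]
  rw [Finset.sum_ite_eq' (range _) i]
  split_ifs with h
  · rfl
  · rw [Finset.mem_range, not_lt] at h
    have h1 : n < Fintype.card F ^ i := by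
      refine lt_of_lt_of_le (Nat.lt_base_pow_length_digits (one_lt_card (F := F))) ?_
      exact Nat.pow_le_pow_right Fintype.card_pos h
    have h2 : n / Fintype.card F ^ i % Fintype.card F = 0 := by
      rw [Nat.div_eq_of_lt h1, Nat.zero_mod]
    simp only [h2]
    rw [hE']

theorem eq_of_digits (q : ℕ) (hq : 2 ≤ q) : ∀ n n' : ℕ,
    (∀ i, n / q ^ i % q = n' / q ^ i % q) → n = n' := by
  intro n
  induction n using Nat.strong_induction_on with
  | _ n ih =>
    intro n' h
    rcases Nat.eq_zero_or_pos n with hn | hn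
    · subst hn
      by_contra hne
      have h1 : n' ≠ 0 := fun h0 => hne h0.symm
      have h2 := h (Nat.log q n')
      rw [Nat.zero_div, Nat.zero_mod] at h2
      have h3 := Nat.pow_log_le_self q h1
      have h4 : n' < q ^ (Nat.log q n' + 1) := Nat.lt_pow_succ_log_self (by omega) n'
      have h5 : n' / q ^ Nat.log q n' < q := by
        rw [Nat.div_lt_iff_lt_mul (by positivity), Nat.mul_comm, ← pow_succ]
        exact h4
      have h6 : 0 < n' / q ^ Nat.log q n' := Nat.div_pos h3 (by positivity)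
      rw [Nat.mod_eq_of_lt h5] at h2
      omega
    · have h1 : n / q = n' / q := by
        refine ih (n / q) (Nat.div_lt_self hn (by omega)) (n' / q) fun i => ?_
        have := h (i + 1)
        rwa [pow_succ', ← Nat.div_div_eq_div_mul, ← Nat.div_div_eq_div_mul] at this
      have h2 := h 0
      rw [pow_zero, Nat.div_one, Nat.div_one] at h2
      rw [← Nat.div_add_mod n q, ← Nat.div_add_mod n' q, h1, h2]

theorem polyOf_injective (hE : (E 0 : ℕ) = 0) : Function.Injective (polyOf E) := by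
  intro n n' h
  apply eq_of_digits (Fintype.card F) one_lt_card
  intro i
  have h1 : (polyOf E n).coeff i = (polyOf E n').coeff i := by rw [h]
  rw [polyOf_coeff E hE, polyOf_coeff E hE] at h1
  have h2 := E.symm.injective h1
  exact congrArg Fin.val h2

theorem polyOf_block (hE : (E 0 : ℕ) = 0) {n n' u m i : ℕ}
    (hn : n ∈ Ico (u * Fintype.card F ^ m) ((u + 1) * Fintype.card F ^ m))
    (hn' : n' ∈ Ico (u * Fintype.card F ^ m) ((u + 1) * Fintype.card F ^ m)) (hi : m ≤ i) :
    (polyOf E n - polyOf E n').coeff i = 0 := by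
  have hu : ∀ n ∈ Ico (u * Fintype.card F ^ m) ((u + 1) * Fintype.card F ^ m),
      n / Fintype.card F ^ m = u := by
    intro n hn
    rw [Finset.mem_Ico] at hn
    have hq : 0 < Fintype.card F ^ m := by
      have := one_lt_card (F := F)
      positivity
    have h1 : n / Fintype.card F ^ m < u + 1 := (Nat.div_lt_iff_lt_mul hq).2 hn.2
    have h2 : u ≤ n / Fintype.card F ^ m := (Nat.le_div_iff_mul_le hq).2 hn.1
    omega
  have hd : n / Fintype.card F ^ i = n' / Fintype.card F ^ i := by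
    obtain ⟨r, rfl⟩ := Nat.exists_eq_add_of_le hi
    rw [pow_add, ← Nat.div_div_eq_div_mul, ← Nat.div_div_eq_div_mul, hu n hn, hu n' hn']
  rw [coeff_sub, polyOf_coeff E hE, polyOf_coeff E hE]
  simp only [hd, sub_self]

/-! ### The digits of the two coordinates -/

/-- the first `k` digits of the first coordinate -/
noncomputable def preA (Θ : LaurentSeries F) (f : F[X]) : ℕ → ℕ
  | 0 => 0
  | k + 1 => Fintype.card F * preA Θ f k + (E ((ofPoly f * Θ).coeff ((k : ℤ) + 1)) : ℕ)

theorem preA_lt (Θ : LaurentSeries F) (f : F[X]) (k : ℕ) : preA E Θ f k < Fintype.card F ^ k := by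
  induction k with
  | zero => simp [preA]
  | succ k ih =>
    rw [preA, pow_succ]
    have := (E ((ofPoly f * Θ).coeff ((k : ℤ) + 1))).2
    calc _ < Fintype.card F * preA E Θ f k + Fintype.card F := by omega
      _ = (preA E Θ f k + 1) * Fintype.card F := by ring
      _ ≤ _ := Nat.mul_le_mul_right _ ih

theorem digit_step {q a b r s : ℕ} (hr : r < q) (hs : s < q) (h : q * a + r = q * b + s) :
    a = b ∧ r = s := by
  have hq : 0 < q := by omega
  have h1 : (q * a + r) / q = a := by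
    rw [Nat.mul_add_div hq, Nat.div_eq_of_lt hr, add_zero]
  have h2 : (q * b + s) / q = b := by
    rw [Nat.mul_add_div hq, Nat.div_eq_of_lt hs, add_zero]
  have h3 : a = b := by rw [← h1, h, h2]
  refine ⟨h3, ?_⟩
  subst h3
  omega

theorem preA_inj (Θ : LaurentSeries F) (f g : F[X]) (k : ℕ) (h : preA E Θ f k = preA E Θ g k) :
    ∀ i < k, (ofPoly f * Θ).coeff ((i : ℤ) + 1) = (ofPoly g * Θ).coeff ((i : ℤ) + 1) := by
  induction k with
  | zero => intro i hi; omega
  | succ k ih =>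
    rw [preA, preA] at h
    obtain ⟨h1, h2⟩ := digit_step (Fin.is_lt _) (Fin.is_lt _) h
    intro i hi
    rcases Nat.lt_succ_iff_lt_or_eq.1 hi with h3 | h3
    · exact ih h1 i h3
    · rw [h3]
      exact E.injective (Fin.ext h2)

/-- the value of a polynomial with few coefficients -/
theorem evPoly_eq (hE : (E 0 : ℕ) = 0) (b : F[X]) (e : ℕ) (hb : ∀ i, e ≤ i → b.coeff i = 0) :
    evPoly E b = ∑ j ∈ range e, (E (b.coeff j) : ℕ) * Fintype.card F ^ j := by
  unfold evPoly
  rcases le_total (b.natDegree + 1) e with h | h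
  · refine Finset.sum_subset (fun i hi => ?_) (fun i _ hi => ?_)
    · rw [Finset.mem_range] at hi ⊢; omega
    · rw [Finset.mem_range, not_lt] at hi
      rw [coeff_eq_zero_of_natDegree_lt (by omega), hE, zero_mul]
  · refine (Finset.sum_subset (fun i hi => ?_) (fun i _ hi => ?_)).symm
    · rw [Finset.mem_range] at hi ⊢; omega
    · rw [Finset.mem_range, not_lt] at hi
      rw [hb i hi, hE, zero_mul]

theorem sum_digits_lt (q : ℕ) (d : ℕ → ℕ) (hd : ∀ i, d i < q) (e : ℕ) :
    ∑ j ∈ range e, d j * q ^ j < q ^ e := by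
  induction e with
  | zero => simp
  | succ e ih =>
    rw [Finset.sum_range_succ, pow_succ]
    have h1 := hd e
    calc ∑ j ∈ range e, d j * q ^ j + d e * q ^ e < q ^ e + d e * q ^ e := by omega
      _ = q ^ e * (d e + 1) := by ring
      _ ≤ q ^ e * q := Nat.mul_le_mul_left _ h1

theorem sum_digits_inj (q : ℕ) (d d' : ℕ → ℕ) (hd : ∀ i, d i < q) (hd' : ∀ i, d' i < q) (e : ℕ)
    (h : ∑ j ∈ range e, d j * q ^ j = ∑ j ∈ range e, d' j * q ^ j) : ∀ i < e, d i = d' i := by
  induction e with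
  | zero => intro i hi; omega
  | succ e ih =>
    rw [Finset.sum_range_succ, Finset.sum_range_succ] at h
    have h1 := sum_digits_lt q d hd e
    have h2 := sum_digits_lt q d' hd' e
    have h3 : q ^ e * d e + ∑ j ∈ range e, d j * q ^ j =
        q ^ e * d' e + ∑ j ∈ range e, d' j * q ^ j := by
      rw [Nat.mul_comm (q ^ e) (d e), Nat.mul_comm (q ^ e) (d' e)]; omega
    obtain ⟨h4, h5⟩ := digit_step h1 h2 h3
    intro i hi
    rcases Nat.lt_succ_iff_lt_or_eq.1 hi with h6 | h6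
    · exact ih h5 i h6
    · rw [h6]; exact h4

variable {P : F[X]} (hP : 1 ≤ P.natDegree)
include hP

omit [Fintype F] in
theorem digit_coeff (f : F[X]) (i l : ℕ) (hl : P.natDegree ≤ l) : (digit P f i).coeff l = 0 := by
  have hP0 : P ≠ 0 := by rintro rfl; simp at hP
  unfold digit
  apply coeff_eq_zero_of_degree_lt
  refine (EuclideanDomain.mod_lt _ hP0).trans_le ?_
  rw [degree_eq_natDegree hP0]
  exact_mod_cast hl

theorem evPoly_lt (hE : (E 0 : ℕ) = 0) (f : F[X]) (i : ℕ) :
    evPoly E (digit P f i) < Fintype.card F ^ P.natDegree := by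
  rw [evPoly_eq E hE _ P.natDegree fun l hl => digit_coeff hP f i l hl]
  exact sum_digits_lt _ _ (fun i => Fin.is_lt _) _

theorem evPoly_inj (hE : (E 0 : ℕ) = 0) (f g : F[X]) (i : ℕ)
    (h : evPoly E (digit P f i) = evPoly E (digit P g i)) : digit P f i = digit P g i := by
  rw [evPoly_eq E hE _ P.natDegree fun l hl => digit_coeff hP f i l hl,
    evPoly_eq E hE _ P.natDegree fun l hl => digit_coeff hP g i l hl] at h
  have h1 := sum_digits_inj _ _ _ (fun i => Fin.is_lt _) (fun i => Fin.is_lt _) _ h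
  ext l
  rcases lt_or_ge l P.natDegree with h2 | h2
  · exact E.injective (Fin.ext (h1 l h2))
  · rw [digit_coeff hP f i l h2, digit_coeff hP g i l h2]

omit hP in
omit [Fintype F] in
/-- equal digits imply congruence -/
theorem congr_of_digits (f g : F[X]) (j : ℕ) (h : ∀ i < j, digit P f i = digit P g i) :
    f - g = P ^ j * ((fun a => a / P)^[j] f - (fun a => a / P)^[j] g) := by
  induction j with
  | zero => simp
  | succ j ih =>
    rw [ih fun i hi => h i (by omega)]
    have h1 := h j (by omega)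
    unfold digit at h1
    have h2 := EuclideanDomain.div_add_mod ((fun a => a / P)^[j] f) P
    have h3 := EuclideanDomain.div_add_mod ((fun a => a / P)^[j] g) P
    rw [Function.iterate_succ_apply', Function.iterate_succ_apply']
    rw [h1] at h2
    linear_combination (-P ^ j) * h2 + P ^ j * h3

/-- the first `j` digits of the second coordinate -/
noncomputable def preB (P f : F[X]) : ℕ → ℕ
  | 0 => 0
  | j + 1 => Fintype.card F ^ P.natDegree * preB P f j + evPoly E (digit P f j)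

theorem preB_lt (hE : (E 0 : ℕ) = 0) (f : F[X]) (j : ℕ) :
    preB E P f j < Fintype.card F ^ (P.natDegree * j) := by
  induction j with
  | zero => simp [preB]
  | succ j ih =>
    rw [preB, Nat.mul_add, mul_one, pow_add]
    have := evPoly_lt E hP hE f j
    calc _ < Fintype.card F ^ P.natDegree * preB E P f j + Fintype.card F ^ P.natDegree := by omega
      _ = (preB E P f j + 1) * Fintype.card F ^ P.natDegree := by ring
      _ ≤ _ := Nat.mul_le_mul_right _ ih

theorem preB_div (hE : (E 0 : ℕ) = 0) (f : F[X]) (j : ℕ) :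
    preB E P f (j + 1) / Fintype.card F ^ P.natDegree = preB E P f j := by
  rw [preB, Nat.mul_add_div (by have := one_lt_card (F := F); positivity),
    Nat.div_eq_of_lt (evPoly_lt E hP hE f j), add_zero]

theorem preB_inj (hE : (E 0 : ℕ) = 0) (f g : F[X]) (j : ℕ) (h : preB E P f j = preB E P g j) :
    ∀ i < j, digit P f i = digit P g i := by
  induction j with
  | zero => intro i hi; omega
  | succ j ih =>
    rw [preB, preB] at h
    obtain ⟨h1, h2⟩ := digit_step (evPoly_lt E hP hE f j) (evPoly_lt E hP hE g j) h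
    intro i hi
    rcases Nat.lt_succ_iff_lt_or_eq.1 hi with h3 | h3
    · exact ih h1 i h3
    · rw [h3]
      exact evPoly_inj E hP hE f g j h2

/-- upper bound for the number of points in a box -/
theorem box_le (hE : (E 0 : ℕ) = 0) {Θ : LaurentSeries F} {c : ℕ}
    (h : ∀ N : F[X], N ≠ 0 → ∀ k : ℕ, ∃ i : ℕ, i + 1 ≤ N.natDegree + c ∧
      (ofPoly (N * P ^ k) * Θ).coeff ((i : ℤ) + 1) ≠ 0) (hc : 1 ≤ c) (m u k j : ℕ)
    (hk : k + P.natDegree * j + c ≤ m + 1) (a b : ℕ) :
    #{n ∈ Ico (u * Fintype.card F ^ m) ((u + 1) * Fintype.card F ^ m) |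
      preA E Θ (polyOf E n) k = a ∧ preB E P (polyOf E n) j = b} ≤
      Fintype.card F ^ (m - P.natDegree * j - k) := by
  classical
  have hP0 : P ≠ 0 := by rintro rfl; simp at hP
  set S : Finset ℕ := {n ∈ Ico (u * Fintype.card F ^ m) ((u + 1) * Fintype.card F ^ m) |
      preA E Θ (polyOf E n) k = a ∧ preB E P (polyOf E n) j = b} with hS
  rcases S.eq_empty_or_nonempty with h0 | ⟨n₀, hn₀⟩
  · rw [h0]; simp
  set M := m - P.natDegree * j with hM
  have hcard := card_ker h j M k (by omega)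
  rw [← hcard]
  -- the quotient polynomial
  let Q : ℕ → F[X] := fun n => (fun a => a / P)^[j] (polyOf E n) - (fun a => a / P)^[j] (polyOf E n₀)
  have hQ : ∀ n ∈ S, polyOf E n - polyOf E n₀ = P ^ j * Q n := by
    intro n hn
    rw [hS, Finset.mem_filter] at hn hn₀
    exact congr_of_digits _ _ j (preB_inj E hP hE _ _ j (by rw [hn.2.2, hn₀.2.2]))
  have hdeg : ∀ n ∈ S, ∀ i, M ≤ i → (Q n).coeff i = 0 := by
    intro n hn i hi
    by_cases hQ0 : Q n = 0
    · rw [hQ0, coeff_zero]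
    apply coeff_eq_zero_of_natDegree_lt
    have hn' := hn
    have hn₀' := hn₀
    rw [hS, Finset.mem_filter] at hn' hn₀'
    have h1 : (polyOf E n - polyOf E n₀).natDegree < m := by
      rcases Nat.eq_zero_or_pos m with hm | hm
      · exfalso
        apply hQ0
        have h2 : polyOf E n - polyOf E n₀ = 0 := by
          ext i
          rw [polyOf_block E hE hn'.1 hn₀'.1 (by omega), coeff_zero]
        rw [hQ n hn] at h2
        rcases mul_eq_zero.1 h2 with h3 | h3
        · exact absurd h3 (pow_ne_zero _ hP0)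
        · exact h3
      · have : (polyOf E n - polyOf E n₀).natDegree ≤ m - 1 := by
          rw [natDegree_le_iff_coeff_eq_zero]
          intro i hi
          exact polyOf_block E hE hn'.1 hn₀'.1 (by omega)
        omega
    rw [hQ n hn, natDegree_mul (pow_ne_zero _ hP0) hQ0, natDegree_pow, Nat.mul_comm] at h1
    omega
  have hcoef : ∀ n ∈ S, ∀ i < k, ∑ l : Fin M, (Q n).coeff l *
      (ofPoly (P ^ j) * Θ).coeff (((i : ℕ) : ℤ) + 1 + ((l : ℕ) : ℤ)) = 0 := by
    intro n hn i hi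
    have hn' := hn
    have hn₀' := hn₀
    rw [hS, Finset.mem_filter] at hn' hn₀'
    have h1 := preA_inj E Θ _ _ k (hn'.2.1.trans hn₀'.2.1.symm) i hi
    have h2 : (ofPoly (polyOf E n - polyOf E n₀) * Θ).coeff ((i : ℤ) + 1) = 0 := by
      rw [ofPoly_sub, sub_mul, HahnSeries.coeff_sub, h1, sub_self]
    rw [hQ n hn, mul_comm (P ^ j) (Q n), ofPoly_mul, mul_assoc] at h2
    rw [← h2]
    set D := max M ((Q n).natDegree + 1) with hD
    rw [coeff_mul (Q n) (ofPoly (P ^ j) * Θ) _ D (by omega),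
      ← Finset.sum_range (fun l => (Q n).coeff l *
        (ofPoly (P ^ j) * Θ).coeff (((i : ℕ) : ℤ) + 1 + ((l : ℕ) : ℤ)))]
    refine Finset.sum_subset (fun l hl => ?_) (fun l _ hl => ?_)
    · rw [Finset.mem_range] at hl ⊢; omega
    · rw [Finset.mem_range, not_lt] at hl
      rw [hdeg n hn l hl, zero_mul]
  have hmem : ∀ n ∈ S, (fun l : Fin M => (Q n).coeff l) ∈
      LinearMap.ker (hankel (ofPoly (P ^ j) * Θ) M k) := by
    intro n hn
    rw [LinearMap.mem_ker]
    ext i
    exact hcoef n hn i i.2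
  have hSc : #S = Nat.card S := by rw [Nat.card_eq_fintype_card, Fintype.card_coe]
  rw [hSc]
  refine Nat.card_le_card_of_injective (fun n : S => (⟨fun l : Fin M => (Q n).coeff l,
    hmem n n.2⟩ : LinearMap.ker (hankel (ofPoly (P ^ j) * Θ) M k))) ?_
  intro n n' hnn
  have h1 : Q n = Q n' := by
    ext l
    rcases lt_or_ge l M with h2 | h2
    · exact congrFun (congrArg Subtype.val hnn) ⟨l, h2⟩
    · rw [hdeg n n.2 l h2, hdeg n' n'.2 l h2]
  have h2 : polyOf E (n : ℕ) = polyOf E (n' : ℕ) := by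
    have h3 := hQ n n.2
    have h4 := hQ n' n'.2
    rw [h1, ← h4] at h3
    exact sub_left_injective h3
  exact Subtype.ext (polyOf_injective E hE h2)

theorem box_eq (hE : (E 0 : ℕ) = 0) {Θ : LaurentSeries F} {c : ℕ}
    (h : ∀ N : F[X], N ≠ 0 → ∀ k : ℕ, ∃ i : ℕ, i + 1 ≤ N.natDegree + c ∧
      (ofPoly (N * P ^ k) * Θ).coeff ((i : ℤ) + 1) ≠ 0) (hc : 1 ≤ c) (m u k j : ℕ)
    (hk : k + P.natDegree * j + c ≤ m + 1) (a : ℕ) (ha : a < Fintype.card F ^ k) (b : ℕ)
    (hb : b < Fintype.card F ^ (P.natDegree * j)) :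
    #{n ∈ Ico (u * Fintype.card F ^ m) ((u + 1) * Fintype.card F ^ m) |
      preA E Θ (polyOf E n) k = a ∧ preB E P (polyOf E n) j = b} =
      Fintype.card F ^ (m - P.natDegree * j - k) := by
  classical
  set T := range (Fintype.card F ^ k) ×ˢ range (Fintype.card F ^ (P.natDegree * j)) with hT
  set I := Ico (u * Fintype.card F ^ m) ((u + 1) * Fintype.card F ^ m) with hI
  let φ : ℕ → ℕ × ℕ := fun n => (preA E Θ (polyOf E n) k, preB E P (polyOf E n) j)
  have hmap : ∀ n ∈ I, φ n ∈ T := fun n _ => Finset.mem_product.2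
    ⟨Finset.mem_range.2 (preA_lt E Θ _ _), Finset.mem_range.2 (preB_lt E hP hE _ _)⟩
  have hfib : ∀ p : ℕ × ℕ, #{n ∈ I | φ n = p} ≤ Fintype.card F ^ (m - P.natDegree * j - k) := by
    intro p
    have h1 := box_le E hP hE h hc m u k j hk p.1 p.2
    rw [← hI] at h1
    refine le_trans (le_of_eq ?_) h1
    congr 1
    ext n
    simp only [Finset.mem_filter, φ, Prod.ext_iff]
  have hsum : ∑ p ∈ T, #{n ∈ I | φ n = p} =
      ∑ _p ∈ T, Fintype.card F ^ (m - P.natDegree * j - k) := by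
    rw [← Finset.card_eq_sum_card_fiberwise hmap, Finset.sum_const, hT, Finset.card_product,
      Finset.card_range, Finset.card_range, hI, Nat.card_Ico, smul_eq_mul, ← pow_add, ← pow_add,
      Nat.add_mul, one_mul, Nat.add_sub_cancel_left]
    congr 1
    omega
  have h2 := (Finset.sum_eq_sum_iff_of_le fun p _ => hfib p).1 hsum (a, b)
    (Finset.mem_product.2 ⟨Finset.mem_range.2 ha, Finset.mem_range.2 hb⟩)
  rw [← h2]
  congr 1
  ext n
  simp only [Finset.mem_filter, φ, Prod.ext_iff]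

end

/-- the data for the counting argument -/
theorem data (E : F ≃ Fin (Fintype.card F)) (hE : (E 0 : ℕ) = 0) (P : F[X])
    (hP : 1 ≤ P.natDegree) (Θ : LaurentSeries F) (hΘ : Bad P Θ) :
    ∃ c : ℕ, R332.Net.Data (Fintype.card F) P.natDegree c
      (fun k n => preA E Θ (polyOf E n) k) (fun j n => preB E P (polyOf E n) j)
      (kron E Θ) (vdc E P) := by
  obtain ⟨c, hc, h⟩ := bad_coeff hΘ
  have hq := one_lt_card (F := F)
  refine ⟨c, hq, hP, hc, ?_, ?_, ?_, ?_, ?_⟩
  · intro k n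
    have h1 := digits_real (Fintype.card F) hq
      (fun i => (E ((ofPoly (polyOf E n) * Θ).coeff ((i : ℤ) + 1)) : ℕ)) (fun i => Fin.is_lt _)
      (preA E Θ (polyOf E n)) rfl (fun k => rfl) k
    have h2 : kron E Θ n = ∑' i : ℕ, ((E ((ofPoly (polyOf E n) * Θ).coeff ((i : ℤ) + 1)) : ℕ) : ℝ)
        / (Fintype.card F : ℝ) ^ (i + 1) := by
      unfold kron evFrac
      refine tsum_congr fun i => ?_
      have h3 : (frac (ofPoly (polyOf E n) * Θ)).coeff ((i : ℤ) + 1) =
          (ofPoly (polyOf E n) * Θ).coeff ((i : ℤ) + 1) := by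
        show (if 1 ≤ ((i : ℤ) + 1) then _ else _) = _
        rw [if_pos (by omega)]
      rw [h3]
    rw [h2]
    exact h1
  · intro j n
    have hβ : 2 ≤ Fintype.card F ^ P.natDegree := by
      calc 2 ≤ Fintype.card F ^ 1 := by rw [pow_one]; exact hq
        _ ≤ _ := Nat.pow_le_pow_right (by omega) hP
    have h1 := digits_real (Fintype.card F ^ P.natDegree) hβ
      (fun i => evPoly E (digit P (polyOf E n) i)) (fun i => evPoly_lt E hP hE _ _)
      (preB E P (polyOf E n)) rfl (fun k => rfl) j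
    have h2 : vdc E P n = ∑' i : ℕ, (evPoly E (digit P (polyOf E n) i) : ℝ) /
        ((Fintype.card F ^ P.natDegree : ℕ) : ℝ) ^ (i + 1) := by
      unfold vdc
      push_cast
      rfl
    rw [h2, pow_mul]
    push_cast at h1 ⊢
    exact h1
  · intro j n
    exact preB_lt E hP hE _ _
  · intro j n
    exact preB_div E hP hE _ _
  · intro m u k j hk a ha b hb
    exact box_eq E hP hE h hc m u k j hk a ha b hb

theorem result (E : F ≃ Fin (Fintype.card F)) (hE : (E 0 : ℕ) = 0) (P : F[X])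
    (hP : 1 ≤ P.natDegree) (Θ : LaurentSeries F) (hΘ : Bad P Θ) :
    LowDisc fun n => (kron E Θ n, vdc E P n) := by
  obtain ⟨c, hd⟩ := data E hE P hP Θ hΘ
  obtain ⟨C, hC⟩ := R332.Net.main hd
  refine ⟨C, fun N hN => ?_⟩
  have hN0 : (0 : ℝ) < N := by exact_mod_cast (by omega : 0 < N)
  refine csSup_le ⟨_, 0, 0, le_rfl, zero_le_one, le_rfl, zero_le_one, rfl⟩ ?_
  rintro d ⟨γ, l, h0, h1, h2, h3, rfl⟩
  have h4 := hC N hN γ l h0 h1 h2 h3
  have hset : {n : ℕ | n < N ∧ (kron E Θ n, vdc E P n) ∈ Set.Ico 0 γ ×ˢ Set.Ico 0 l} =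
      (({n ∈ range N | kron E Θ n < γ ∧ vdc E P n < l} : Finset ℕ) : Set ℕ) := by
    ext n
    have h5 : 0 ≤ kron E Θ n := tsum_nonneg fun i => by positivity
    have h6 : 0 ≤ vdc E P n := tsum_nonneg fun i => by positivity
    simp only [Finset.coe_filter, Finset.mem_range, Set.mem_prod, Set.mem_Ico]
    constructor
    · rintro ⟨h7, ⟨-, h8⟩, -, h9⟩
      exact ⟨h7, h8, h9⟩
    · rintro ⟨h7, h8, h9⟩
      exact ⟨h7, ⟨h5, h8⟩, h6, h9⟩
  rw [hset, Set.ncard_coe_finset]
  have e : 1 / (N : ℝ) * (#{n ∈ range N | kron E Θ n < γ ∧ vdc E P n < l} : ℝ) - γ * l =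
      ((#{n ∈ range N | kron E Θ n < γ ∧ vdc E P n < l} : ℝ) - N * (γ * l)) / N := by
    field_simp
  rw [e, abs_div, abs_of_pos hN0, mul_div_assoc']
  exact div_le_div_of_nonneg_right h4 hN0.le

end Pool.Agent.Results.MP_05fa0d_nt.LowDiscrepancy
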